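import Mathlib

/-! MP_96d021_co (standard, Q1), order lemma for helper91's proof. -/

namespace Pool.Agent.MP96d021

open Classical in
theorem order_aux {V : Type*} (P : Finset V → V → Prop)
    (hP : ∀ X : Finset V, X.Nonempty → ∃ v ∈ X, P X v) :
    ∀ n : ℕ, ∀ S : Finset V, S.card = n →
      ∃ rho : V → ℕ, (∀ u ∈ S, rho u < n) ∧ (∀ u ∈ S, ∀ w ∈ S, rho u = rho w → u = w) ∧
        ∀ v ∈ S, P (S.filter fun u => rho u ≤ rho v) v := by
  intro n
  induction n with
  | zero =>
    intro S hS
    have : S = ∅ := Finset.card_eq_zero.mp hS
    subst this
    exact ⟨fun _ => 0, by simp, by simp, by simp⟩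
  | succ n ih =>
    intro S hS
    have hne : S.Nonempty := by
      rw [← Finset.card_pos]; omega
    obtain ⟨v, hv, hPv⟩ := hP S hne
    have hc : (S.erase v).card = n := by
      rw [Finset.card_erase_of_mem hv]; omega
    obtain ⟨rho, h1, h2, h3⟩ := ih (S.erase v) hc
    refine ⟨fun u => if u = v then n else rho u, ?_, ?_, ?_⟩
    · intro u hu
      by_cases h : u = v
      · simp [h]
      · have := h1 u (Finset.mem_erase.mpr ⟨h, hu⟩)
        simp only [h, if_false]
        omega
    · intro u hu w hw huw
      by_cases h : u = v
      · by_cases h' : w = v
        · rw [h, h']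
        · have := h1 w (Finset.mem_erase.mpr ⟨h', hw⟩)
          simp only [h, h', if_true, if_false] at huw
          omega
      · by_cases h' : w = v
        · have := h1 u (Finset.mem_erase.mpr ⟨h, hu⟩)
          simp only [h, h', if_true, if_false] at huw
          omega
        · simp only [h, h', if_false] at huw
          exact h2 u (Finset.mem_erase.mpr ⟨h, hu⟩) w (Finset.mem_erase.mpr ⟨h', hw⟩) huw
    · intro w hw
      by_cases h : w = v
      · subst h
        have : (S.filter fun u => (if u = w then n else rho u) ≤ (if w = w then n else rho w)) = S := by
          apply Finset.filter_true_of_mem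
          intro u hu
          by_cases h : u = w
          · simp [h]
          · have := h1 u (Finset.mem_erase.mpr ⟨h, hu⟩)
            simp only [h, if_false, if_true]
            omega
        rw [this]
        exact hPv
      · have hw' : w ∈ S.erase v := Finset.mem_erase.mpr ⟨h, hw⟩
        have : (S.filter fun u => (if u = v then n else rho u) ≤ (if w = v then n else rho w))
            = (S.erase v).filter fun u => rho u ≤ rho w := by
          ext u
          have hlt := h1 w hw'
          simp only [Finset.mem_filter, Finset.mem_erase, h, if_false]
          by_cases hu : u = v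
          · simp only [hu, if_true, ne_eq, not_true_eq_false, false_and, iff_false, not_and]
            intro _
            omega
          · simp only [hu, if_false, ne_eq, not_false_eq_true, true_and]
        rw [this]
        exact h3 w hw'

open Classical in
/-- Order lemma: peel off good vertices one after the other. -/
theorem order_lemma {V : Type*} [Fintype V] (P : Finset V → V → Prop)
    (hP : ∀ X : Finset V, X.Nonempty → ∃ v ∈ X, P X v) :
    ∃ rho : V → ℕ, Function.Injective rho ∧
      ∀ v, P (Finset.univ.filter fun u => rho u ≤ rho v) v := by
  obtain ⟨rho, _, h2, h3⟩ := order_aux P hP (Finset.univ : Finset V).card Finset.univ rfl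
  exact ⟨rho, fun u w h => h2 u (Finset.mem_univ u) w (Finset.mem_univ w) h,
    fun v => h3 v (Finset.mem_univ v)⟩

end Pool.Agent.MP96d021
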